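import Pool.Agent.N939.ME.Stm

/-!
# ME9: the main energy inequality `S_E4` (helper362)
-/

set_option autoImplicit false
open MeasureTheory ProbabilityTheory Filter Topology Finset
open scoped Classical

namespace Pool.Agent.N362.ME

open Pool.Agent.N939.ME

section basic

variable {S : Type} [MeasurableSpace S] {ν : Measure S} [IsProbabilityMeasure ν]

theorem ae_fst : ∀ᵐ p ∂(nuh ν), 0 < p.1 ∧ p.1 < 1 := by
  have h1 : ∀ᵐ r ∂lam, 0 < r ∧ r < 1 := by
    unfold lam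
    filter_upwards [ae_restrict_mem measurableSet_Ioo] with r hr
    exact hr
  have h2 : MeasurePreserving (Prod.fst : ℝ × S → ℝ) (nuh ν) lam := by
    unfold nuh
    exact measurePreserving_fst
  exact h2.quasiMeasurePreserving.ae h1

theorem memLp_snd {f : S → ℝ} (hf : MemLp f 2 ν) : MemLp (fun p : ℝ × S => f p.2) 2 (nuh ν) := by
  have h2 : MeasurePreserving (Prod.snd : ℝ × S → S) (nuh ν) ν := by
    unfold nuh
    exact measurePreserving_snd
  exact hf.comp_measurePreserving h2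

theorem memLp_r {g : ℝ × S → ℝ} (hg : MemLp g 2 (nuh ν)) :
    MemLp (fun p : ℝ × S => p.1 * g p) 2 (nuh ν) := by
  refine hg.of_le_mul (c := 1) (measurable_fst.aestronglyMeasurable.mul hg.aestronglyMeasurable) ?_
  filter_upwards [ae_fst (ν := ν)] with p hp
  rw [norm_mul, one_mul]
  have h1 : ‖p.1‖ ≤ 1 := by
    rw [Real.norm_eq_abs, abs_of_pos hp.1]
    exact hp.2.le
  calc ‖p.1‖ * ‖g p‖ ≤ 1 * ‖g p‖ := by gcongr
    _ = ‖g p‖ := one_mul _

theorem ind_cases {B : Set S} (x : S) :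
    (B.indicator (1 : S → ℝ) x = 1 ∨ B.indicator (1 : S → ℝ) x = 0) := by
  by_cases h : x ∈ B
  · left; simp [h]
  · right; simp [h]

theorem memLp_ind {B : Set S} (hB : MeasurableSet B) {g : ℝ × S → ℝ} (hg : MemLp g 2 (nuh ν)) :
    MemLp (fun p : ℝ × S => B.indicator 1 p.2 * g p) 2 (nuh ν) := by
  have hm : Measurable (fun p : ℝ × S => B.indicator (1 : S → ℝ) p.2) :=
    (measurable_one.indicator hB).comp measurable_snd
  refine hg.of_le_mul (c := 1) (hm.aestronglyMeasurable.mul hg.aestronglyMeasurable) ?_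
  refine Eventually.of_forall fun p => ?_
  rw [norm_mul]
  rcases ind_cases (B := B) p.2 with h | h
  · rw [h]; simp
  · rw [h]; simp

theorem int_ind {B : Set S} (hB : MeasurableSet B) {g : ℝ × S → ℝ} (hg : Integrable g (nuh ν)) :
    Integrable (fun p : ℝ × S => B.indicator 1 p.2 * g p) (nuh ν) ∧
      |∫ p, B.indicator 1 p.2 * g p ∂(nuh ν)| ≤ ∫ p, |g p| ∂(nuh ν) := by
  have hm : Measurable (fun p : ℝ × S => B.indicator (1 : S → ℝ) p.2) :=
    (measurable_one.indicator hB).comp measurable_snd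
  have hb : ∀ p : ℝ × S, |B.indicator 1 p.2 * g p| ≤ |g p| := by
    intro p
    rw [abs_mul]
    rcases ind_cases (B := B) p.2 with h | h
    · rw [h]; simp
    · rw [h]; simp
  have h1 : Integrable (fun p : ℝ × S => B.indicator 1 p.2 * g p) (nuh ν) :=
    hg.mono (hm.aestronglyMeasurable.mul hg.aestronglyMeasurable)
      (Eventually.of_forall fun p => by simpa using hb p)
  refine ⟨h1, ?_⟩
  refine (abs_integral_le_integral_abs).trans ?_
  exact integral_mono h1.abs hg.abs hb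

end basic

/-- integration of the pointwise inequality -/
theorem comb {X : Type} [MeasurableSpace X] {μ : Measure X} {a b c d e g : X → ℝ} {l k : ℝ}
    (ha : Integrable a μ) (hb : Integrable b μ) (hc : Integrable c μ) (hd : Integrable d μ)
    (he : Integrable e μ) (hg : Integrable g μ)
    (h : ∀ x, 2 * a x ≤ 2 * b x + l * (c x + d x) + k * (e x + g x)) :
    2 * ∫ x, a x ∂μ ≤ 2 * ∫ x, b x ∂μ + l * (∫ x, c x ∂μ + ∫ x, d x ∂μ) +
      k * (∫ x, e x ∂μ + ∫ x, g x ∂μ) := by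
  have h1 : Integrable (fun x => 2 * b x + l * (c x + d x) + k * (e x + g x)) μ :=
    ((hb.const_mul 2).add ((hc.add hd).const_mul l)).add ((he.add hg).const_mul k)
  have h2 := integral_mono (ha.const_mul 2) h1 h
  have h4 : Integrable (fun x => 2 * b x) μ := hb.const_mul 2
  have h5 : Integrable (fun x => l * (c x + d x)) μ := (hc.add hd).const_mul l
  have h6 : Integrable (fun x => k * (e x + g x)) μ := (he.add hg).const_mul k
  have h7 : Integrable (fun x => 2 * b x + l * (c x + d x)) μ := h4.add h5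
  have h3 : ∫ x, (2 * b x + l * (c x + d x) + k * (e x + g x)) ∂μ =
      2 * ∫ x, b x ∂μ + l * (∫ x, c x ∂μ + ∫ x, d x ∂μ) + k * (∫ x, e x ∂μ + ∫ x, g x ∂μ) := by
    rw [integral_add h7 h6, integral_add h4 h5, integral_const_mul, integral_const_mul,
      integral_const_mul, integral_add hc hd, integral_add he hg]
  rw [h3, integral_const_mul] at h2
  exact h2

section main

variable {S : Type} [MeasurableSpace S] {Q : Kernel S S} [IsMarkovKernel Q] {ν : Measure S}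
  [IsProbabilityMeasure ν]

theorem memLp_TT (hHAT : S_HAT) (hTT : S_TT) (hν : ν.bind Q = ν) {g : ℝ × S → ℝ}
    (hg : MemLp g 2 (nuh ν)) : MemLp (TT (Qh Q) g) 2 (nuh ν) ∧
      ∫ p, TT (Qh Q) g p ^ 2 ∂(nuh ν) ≤ ∫ p, g p ^ 2 ∂(nuh ν) := by
  have h1 := (hHAT S Q ν hν).2
  have h2 := (hTT (ℝ × S) (Qh Q) (nuh ν) h1).2.2.1 g hg
  exact ⟨h2.1, h2.2.1⟩

theorem memLp_gam (hHAT : S_HAT) (hTT : S_TT) (hν : ν.bind Q = ν) {f : S → ℝ}
    (hf : MemLp f 2 ν) {B : ℕ → Set S} (hB : ∀ t, MeasurableSet (B t)) :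
    ∀ i z, MemLp (gam Q f B i z) 2 (nuh ν) := by
  intro i
  induction i with
  | zero =>
    intro z
    exact MemLp.zero'
  | succ i ih =>
    intro z
    have h1 := (memLp_TT hHAT hTT hν (ih (z + 1))).1
    exact memLp_ind (hB z) ((memLp_snd hf).add (memLp_r h1))

theorem memLp_Gst (hHAT : S_HAT) (hBK1 : S_BK1) (hν : ν.bind Q = ν) {f : S → ℝ}
    (hf : MemLp f 2 ν) {B : ℕ → Set S} (hB : ∀ t, MeasurableSet (B t)) :
    ∀ t, MemLp (Gst Q ν f B t) 2 (nuh ν) := by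
  intro t
  induction t with
  | zero =>
    have h1 : MemLp ((B 0).indicator f) 2 ν := hf.indicator (hB 0)
    exact memLp_snd h1
  | succ t ih =>
    have h1 := (hHAT S Q ν hν).2
    have h2 := ((hBK1 (ℝ × S) (Qh Q) (nuh ν) h1).1 _ ih).2.1
    exact memLp_ind (hB (t + 1)) ((memLp_snd hf).add (memLp_r h2))

theorem Gst_supp {f : S → ℝ} {B : ℕ → Set S} (t : ℕ) (p : ℝ × S) :
    (B t).indicator 1 p.2 * Gst Q ν f B t p = Gst Q ν f B t p := by
  cases t with
  | zero =>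
    show (B 0).indicator 1 p.2 * (B 0).indicator f p.2 = (B 0).indicator f p.2
    by_cases h : p.2 ∈ B 0
    · simp [h]
    · simp [h]
  | succ t =>
    show (B (t + 1)).indicator 1 p.2 * ((B (t + 1)).indicator 1 p.2 * _) =
      (B (t + 1)).indicator 1 p.2 * _
    rcases ind_cases (B := B (t + 1)) p.2 with h | h
    · rw [h]; ring
    · rw [h]; ring

theorem ind_le (B A : Set S) (hB : MeasurableSet B) (hA : MeasurableSet A) {M ε : ℝ} (hM : 0 ≤ M)
    (hε : 0 ≤ ε) (h : S → ℝ) :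
    ∫ x, (B \ A).indicator (fun y => ε + M * h y) x ∂ν ≤
      ε + M * ∫ x, (B \ A).indicator h x ∂ν := by
  have hBA : MeasurableSet (B \ A) := hB.diff hA
  have hεi : Integrable ((B \ A).indicator (fun _ => ε)) ν := (integrable_const ε).indicator hBA
  have hεle : ∫ x, (B \ A).indicator (fun _ => ε) x ∂ν ≤ ε := by
    calc ∫ x, (B \ A).indicator (fun _ => ε) x ∂ν ≤ ∫ _, ε ∂ν :=
          integral_mono hεi (integrable_const ε) (fun x => by
            by_cases hx : x ∈ B \ A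
            · simp [hx]
            · simp only [Set.indicator_of_notMem hx]; exact hε)
      _ = ε := by simp
  have hsplit : (B \ A).indicator (fun y => ε + M * h y) =
      fun x => (B \ A).indicator (fun _ => ε) x + M * (B \ A).indicator h x := by
    ext x
    by_cases hx : x ∈ B \ A
    · simp [hx]
    · simp only [Set.indicator_of_notMem hx]; ring
  by_cases hi : Integrable ((B \ A).indicator h) ν
  · rw [hsplit, integral_add hεi (hi.const_mul M), integral_const_mul]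
    linarith
  · rw [integral_undef hi]
    by_cases hM0 : M = 0
    · subst hM0
      rw [hsplit]
      simp only [zero_mul, add_zero, mul_zero]
      exact hεle
    · have : ¬ Integrable ((B \ A).indicator (fun y => ε + M * h y)) ν := by
        intro h1
        apply hi
        have h2 := (h1.sub hεi).const_mul (M⁻¹)
        refine h2.congr (Eventually.of_forall fun x => ?_)
        simp only [Pi.sub_apply]
        rw [hsplit]
        field_simp
        ring
      rw [integral_undef this, mul_zero, add_zero]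
      exact hε

theorem ups_eq (f : S → ℝ) (Φ Ψ : ℝ × S → ℝ) (hf : MemLp f 2 ν)
    (hPT : Integrable (fun p => Ψ p * TT (Qh Q) Φ p) (nuh ν)) (B : Set S) (hB : MeasurableSet B) :
    ∫ x, B.indicator (Ups Q f Φ Ψ) x ∂ν = ∫ x, B.indicator (fun y => f y ^ 2) x ∂ν +
      2 * ∫ p, B.indicator 1 p.2 * (Ψ p * TT (Qh Q) Φ p) ∂(nuh ν) := by
  have hf2 : Integrable (B.indicator (fun y => f y ^ 2)) ν := hf.integrable_sq.indicator hB
  have hPT' := (int_ind hB hPT).1
  have hfub : ∫ p, B.indicator 1 p.2 * (Ψ p * TT (Qh Q) Φ p) ∂(nuh ν) =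
      ∫ x, (∫ r, B.indicator 1 x * (Ψ (r, x) * TT (Qh Q) Φ (r, x)) ∂lam) ∂ν := by
    have h1 : Integrable (fun p : ℝ × S => B.indicator 1 p.2 * (Ψ p * TT (Qh Q) Φ p))
      (lam.prod ν) := hPT'
    exact integral_prod_symm _ h1
  have hinti : Integrable (fun x => ∫ r, B.indicator 1 x * (Ψ (r, x) * TT (Qh Q) Φ (r, x)) ∂lam) ν := by
    have h1 : Integrable (fun p : ℝ × S => B.indicator 1 p.2 * (Ψ p * TT (Qh Q) Φ p))
      (lam.prod ν) := hPT'
    exact h1.integral_prod_right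
  have hsplit : (B.indicator (Ups Q f Φ Ψ)) = fun x => B.indicator (fun y => f y ^ 2) x +
      2 * ∫ r, B.indicator 1 x * (Ψ (r, x) * TT (Qh Q) Φ (r, x)) ∂lam := by
    ext x
    by_cases hx : x ∈ B
    · simp [hx, Ups]
    · simp [hx]
  rw [hsplit, integral_add hf2 (hinti.const_mul 2), integral_const_mul, hfub]

end main

theorem sum3 (n : ℕ) (D E Z : ℕ → ℝ) (c k : ℝ) :
    ∑ t ∈ range n, (2 * D t + c + k * (E t + Z t)) =
      2 * ∑ t ∈ range n, D t + n * c + k * (∑ t ∈ range n, E t + ∑ t ∈ range n, Z t) := by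
  rw [sum_add_distrib, sum_add_distrib, sum_const, card_range, nsmul_eq_mul, ← mul_sum, ← mul_sum,
    sum_add_distrib]

theorem e4 (hHAT : S_HAT) (hTT : S_TT) (hBK1 : S_BK1) (hEN2 : S_EN2) (hZF : S_ZF) (hZB : S_ZB) :
    S_E4 := by
  intro S _ Q _ ν _ hν f Φ Ψ hR M ε r0 l hM hε hr0 hr1 hl B hB hBΦ hBΨ A hA N
  have hTΦ := memLp_TT hHAT hTT hν hR.lΦ
  have hgam := memLp_gam hHAT hTT hν hR.lf hB
  have hGst := memLp_Gst hHAT hBK1 hν hR.lf hB
  have hTgam : ∀ i z, MemLp (TT (Qh Q) (gam Q f B i z)) 2 (nuh ν) := fun i z =>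
    (memLp_TT hHAT hTT hν (hgam i z)).1
  have hPT : Integrable (fun p => Ψ p * TT (Qh Q) Φ p) (nuh ν) := hR.lΨ.integrable_mul hTΦ.1
  have hZF' := hZF S Q ν hν f Φ Ψ hR M ε r0 hM hε hr0 hr1 B hB hBΦ A hA N
  have hZB' := hZB S Q ν hν f Φ Ψ hR M ε r0 hM hε hr0 hr1 B hB hBΨ A hA N
  -- abbreviations
  set D : ℕ → ℝ := fun t => ∫ p, (B t).indicator 1 p.2 * (Ψ p * TT (Qh Q) Φ p) ∂(nuh ν) with hD
  set E : ℕ → ℝ := fun t => ∫ p, ((B t).indicator 1 p.2 * Ψ p - Gst Q ν f B t p) ^ 2 ∂(nuh ν)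
    with hE
  set Z : ℕ → ℝ := fun t => ∫ p, ((B t).indicator 1 p.2 *
        (TT (Qh Q) Φ p - TT (Qh Q) (gam Q f B (N - 1 - t) (t + 1)) p)) ^ 2 ∂(nuh ν) with hZ
  set P2 : ℝ := ∫ p, Φ p ^ 2 ∂(nuh ν) with hP2
  set S2 : ℝ := ∫ p, Ψ p ^ 2 ∂(nuh ν) with hS2
  set W : ℝ := ∫ p, |Ψ p * TT (Qh Q) Φ p| ∂(nuh ν) with hW
  have hP2nn : 0 ≤ P2 := integral_nonneg fun p => sq_nonneg _
  have hS2nn : 0 ≤ S2 := integral_nonneg fun p => sq_nonneg _
  -- one term
  have hterm : ∀ t, 2 * ∫ p, Gst Q ν f B t p *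
      TT (Qh Q) (gam Q f B (N - 1 - t) (t + 1)) p ∂(nuh ν) ≤
      2 * D t + l * (P2 + S2) + (1 + 1 / l) * (E t + Z t) := by
    intro t
    have hind : ∀ g : ℝ × S → ℝ, MemLp g 2 (nuh ν) →
        MemLp (fun p : ℝ × S => (B t).indicator 1 p.2 * g p) 2 (nuh ν) := fun g hg =>
      memLp_ind (hB t) hg
    have i1 : Integrable (fun p => Gst Q ν f B t p *
      TT (Qh Q) (gam Q f B (N - 1 - t) (t + 1)) p) (nuh ν) := (hGst t).integrable_mul (hTgam _ _)
    have i2 := (int_ind (hB t) hPT).1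
    have i3 : Integrable (fun p => TT (Qh Q) Φ p ^ 2) (nuh ν) := hTΦ.1.integrable_sq
    have i4 : Integrable (fun p => Ψ p ^ 2) (nuh ν) := hR.lΨ.integrable_sq
    have i5 : Integrable (fun p => ((B t).indicator 1 p.2 * Ψ p - Gst Q ν f B t p) ^ 2) (nuh ν) :=
      ((hind _ hR.lΨ).sub (hGst t)).integrable_sq
    have i6 : Integrable (fun p => ((B t).indicator 1 p.2 *
        (TT (Qh Q) Φ p - TT (Qh Q) (gam Q f B (N - 1 - t) (t + 1)) p)) ^ 2) (nuh ν) :=
      (hind _ (hTΦ.1.sub (hTgam _ _))).integrable_sq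
    have hpt : ∀ p, 2 * (Gst Q ν f B t p * TT (Qh Q) (gam Q f B (N - 1 - t) (t + 1)) p) ≤
        2 * ((B t).indicator 1 p.2 * (Ψ p * TT (Qh Q) Φ p)) +
        l * (TT (Qh Q) Φ p ^ 2 + Ψ p ^ 2) +
        (1 + 1 / l) * (((B t).indicator 1 p.2 * Ψ p - Gst Q ν f B t p) ^ 2 +
          ((B t).indicator 1 p.2 *
            (TT (Qh Q) Φ p - TT (Qh Q) (gam Q f B (N - 1 - t) (t + 1)) p)) ^ 2) := by
      intro p
      have hs := Gst_supp (Q := Q) (ν := ν) (f := f) (B := B) t p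
      set G := Gst Q ν f B t p
      set T := TT (Qh Q) Φ p
      set g := TT (Qh Q) (gam Q f B (N - 1 - t) (t + 1)) p
      have key : ∀ a η ζ b : ℝ, -(2 * (η * b)) - 2 * (a * ζ) + 2 * (η * ζ) ≤
          l * (b ^ 2 + a ^ 2) + (1 + 1 / l) * (η ^ 2 + ζ ^ 2) := by
        intro a η ζ b
        have hl' : l * (1 / l) = 1 := by field_simp
        have h1 : 0 ≤ l * (b + (1 / l) * η) ^ 2 := mul_nonneg hl.le (sq_nonneg _)
        have h2 : 0 ≤ l * (a + (1 / l) * ζ) ^ 2 := mul_nonneg hl.le (sq_nonneg _)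
        have h3 : l * (b + (1 / l) * η) ^ 2 = l * b ^ 2 + 2 * (l * (1 / l)) * (b * η) +
          (l * (1 / l)) * (1 / l) * η ^ 2 := by ring
        have h4 : l * (a + (1 / l) * ζ) ^ 2 = l * a ^ 2 + 2 * (l * (1 / l)) * (a * ζ) +
          (l * (1 / l)) * (1 / l) * ζ ^ 2 := by ring
        rw [h3, hl'] at h1
        rw [h4, hl'] at h2
        have h5 := sq_nonneg (η - ζ)
        nlinarith
      rcases ind_cases (B := B t) p.2 with h | h
      · rw [h] at hs ⊢
        have h1 := key (Ψ p) (Ψ p - G) (T - g) T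
        have h2 : 2 * (G * g) = 2 * (Ψ p * T) + (-(2 * ((Ψ p - G) * T)) - 2 * (Ψ p * (T - g)) +
          2 * ((Ψ p - G) * (T - g))) := by ring
        rw [h2]
        simp only [one_mul]
        linarith
      · rw [h] at hs ⊢
        have hG : G = 0 := by rw [← hs]; ring
        rw [hG]
        simp only [zero_mul, mul_zero, sub_zero]
        have : 0 ≤ l * (T ^ 2 + Ψ p ^ 2) := by positivity
        simpa using this
    have hint := comb i1 i2 i3 i4 i5 i6 hpt
    have e3 : l * (∫ p, TT (Qh Q) Φ p ^ 2 ∂(nuh ν) + S2) ≤ l * (P2 + S2) := by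
      apply mul_le_mul_of_nonneg_left _ hl.le
      linarith [hTΦ.2]
    simp only [hD, hE, hZ]
    linarith
  -- the last term
  have hDW : ∀ t, |D t| ≤ W := fun t => (int_ind (hB t) hPT).2
  have hWnn : 0 ≤ W := integral_nonneg fun p => abs_nonneg _
  have hDsum : ∑ t ∈ range (N - 1), D t ≤ ∑ t ∈ range N, D t + W := by
    rcases N with _ | n
    · simpa using hWnn
    · rw [Nat.add_sub_cancel, sum_range_succ]
      have := abs_le.1 (hDW n)
      linarith [this.1]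
  -- the sum
  have hsum : 2 * ∑ t ∈ range (N - 1), ∫ p, Gst Q ν f B t p *
      TT (Qh Q) (gam Q f B (N - 1 - t) (t + 1)) p ∂(nuh ν) ≤
      2 * ∑ t ∈ range (N - 1), D t + l * N * (P2 + S2) +
        (1 + 1 / l) * (∑ t ∈ range (N - 1), E t + ∑ t ∈ range (N - 1), Z t) := by
    rw [mul_sum]
    refine (sum_le_sum fun t _ => hterm t).trans ?_
    rw [sum3]
    have h1 : ((N - 1 : ℕ) : ℝ) ≤ N := by exact_mod_cast Nat.sub_le N 1
    have h2 : ((N - 1 : ℕ) : ℝ) * (l * (P2 + S2)) ≤ N * (l * (P2 + S2)) :=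
      mul_le_mul_of_nonneg_right h1 (mul_nonneg hl.le (by linarith))
    linarith
  -- the error terms
  have hw : ∀ F : ℝ × S → ℝ, MemLp F 2 (nuh ν) →
      Integrable (fun p : ℝ × S => F p ^ 2 * ∑ i ∈ range N, p.1 ^ (2 * i)) (nuh ν) := by
    intro F hF
    have hm : Measurable (fun p : ℝ × S => ∑ i ∈ range N, p.1 ^ (2 * i)) := by fun_prop
    refine (hF.integrable_sq.const_mul (N : ℝ)).mono
      (hF.integrable_sq.aestronglyMeasurable.mul hm.aestronglyMeasurable) ?_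
    filter_upwards [ae_fst (ν := ν)] with p hp
    rw [Real.norm_eq_abs, Real.norm_eq_abs, abs_mul, abs_mul, abs_of_nonneg (sq_nonneg (F p)),
      Nat.abs_cast, mul_comm]
    apply mul_le_mul_of_nonneg_right _ (sq_nonneg _)
    have h1 : ∀ i ∈ range N, p.1 ^ (2 * i) ≤ 1 := fun i _ => pow_le_one₀ hp.1.le hp.2.le
    have h2 : 0 ≤ ∑ i ∈ range N, p.1 ^ (2 * i) := sum_nonneg fun i _ => by
      have := hp.1.le
      positivity
    rw [abs_of_nonneg h2]
    calc ∑ i ∈ range N, p.1 ^ (2 * i) ≤ ∑ i ∈ range N, (1 : ℝ) := sum_le_sum h1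
      _ = N := by simp
  have herr : ∫ p, (Φ p ^ 2 + Ψ p ^ 2) * ∑ i ∈ range N, p.1 ^ (2 * i) ∂(nuh ν) =
      ∫ p, Φ p ^ 2 * ∑ i ∈ range N, p.1 ^ (2 * i) ∂(nuh ν) +
      ∫ p, Ψ p ^ 2 * ∑ i ∈ range N, p.1 ^ (2 * i) ∂(nuh ν) := by
    rw [← integral_add (hw Φ hR.lΦ) (hw Ψ hR.lΨ)]
    congr 1
    ext p
    ring
  have hEZ : ∑ t ∈ range (N - 1), E t + ∑ t ∈ range (N - 1), Z t ≤
      ∑ t ∈ range (N - 1), (4 * M * ν.real (B t ∩ A) + 4 * ε
          + 2 * M * (∫ x, (B t \ A).indicator (thf Q (r0 ^ 2) B (N - 1 - t) t) x ∂ν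
            + ∫ x, (B t \ A).indicator (thb Q ν (r0 ^ 2) B t) x ∂ν))
        + 2 * ∫ p, (Φ p ^ 2 + Ψ p ^ 2) * ∑ i ∈ range N, p.1 ^ (2 * i) ∂(nuh ν) := by
    rw [herr]
    have h1 : 2 * ∑ t ∈ range (N - 1), (M * ν.real (B t ∩ A) +
        ∫ x, (B t \ A).indicator (fun y => ε + M * thf Q (r0 ^ 2) B (N - 1 - t) t y) x ∂ν) +
        2 * ∑ t ∈ range (N - 1), (M * ν.real (B t ∩ A) +
        ∫ x, (B t \ A).indicator (fun y => ε + M * thb Q ν (r0 ^ 2) B t y) x ∂ν) ≤
        ∑ t ∈ range (N - 1), (4 * M * ν.real (B t ∩ A) + 4 * ε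
          + 2 * M * (∫ x, (B t \ A).indicator (thf Q (r0 ^ 2) B (N - 1 - t) t) x ∂ν
            + ∫ x, (B t \ A).indicator (thb Q ν (r0 ^ 2) B t) x ∂ν)) := by
      rw [mul_sum, mul_sum, ← sum_add_distrib]
      refine sum_le_sum fun t _ => ?_
      have h2 := ind_le (ν := ν) (B t) A (hB t) hA hM hε (thf Q (r0 ^ 2) B (N - 1 - t) t)
      have h3 := ind_le (ν := ν) (B t) A (hB t) hA hM hε (thb Q ν (r0 ^ 2) B t)
      nlinarith
    linarith
  have hl1 : 0 ≤ 1 + 1 / l := by positivity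
  have hEZ' := mul_le_mul_of_nonneg_left hEZ hl1
  -- the main term
  have hUps : ∑ t ∈ range N, ∫ x, (B t).indicator (Ups Q f Φ Ψ) x ∂ν =
      ∑ s ∈ range N, ∫ x, (B s).indicator (fun y => f y ^ 2) x ∂ν + 2 * ∑ t ∈ range N, D t := by
    rw [mul_sum, ← sum_add_distrib]
    exact sum_congr rfl fun t _ => ups_eq f Φ Ψ hR.lf hPT (B t) (hB t)
  rw [hEN2 S Q ν hν f hR.mf hR.lf B hB N, hUps]
  linarith

end Pool.Agent.N362.ME
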